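import Mathlib

set_option autoImplicit false

/-! CNT: few functions have a small support (helper22). -/

namespace Pool.Agent.H22.BH

theorem enum {K p : ℕ} (i0 : Fin K) (S : Finset (Fin K)) (hS : S.card < p) :
    ∃ e : Fin p → Fin K, ∀ i ∈ S, ∃ j, e j = i := by
  refine ⟨fun j => S.toList.getD (j : ℕ) i0, fun i hi => ?_⟩
  obtain ⟨n, hn, hni⟩ := List.getElem_of_mem (Finset.mem_toList.mpr hi)
  have hn' : n < p := by
    rw [Finset.length_toList] at hn
    omega
  refine ⟨⟨n, hn'⟩, ?_⟩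
  simp only [List.getD_eq_getElem _ _ hn]
  exact hni

theorem small {T : Type} [Group T] [Finite T] {K p : ℕ} (i0 : Fin K) :
    Nat.card {t : Fin K → T // Nat.card {i // t i ≠ 1} < p} ≤ (K * Nat.card T) ^ p := by
  classical
  haveI := Fintype.ofFinite T
  have h1 : ∀ t : {t : Fin K → T // Nat.card {i // t i ≠ 1} < p},
      ∃ e : Fin p → Fin K, ∀ i, (t : Fin K → T) i ≠ 1 → ∃ j, e j = i := by
    rintro ⟨t, ht⟩
    obtain ⟨e, he⟩ := enum i0 (Finset.univ.filter fun i => t i ≠ 1) (by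
      rwa [Nat.card_eq_fintype_card, Fintype.card_subtype] at ht)
    exact ⟨e, fun i hi => he i (Finset.mem_filter.mpr ⟨Finset.mem_univ _, hi⟩)⟩
  choose e he using h1
  have hinj : Function.Injective (fun (t : {t : Fin K → T // Nat.card {i // t i ≠ 1} < p}) (j : Fin p) =>
      (e t j, (t : Fin K → T) (e t j))) := by
    intro t s hts
    have h2 : ∀ j, e t j = e s j := fun j => congrArg Prod.fst (congrFun hts j)
    have h3 : ∀ j, (t : Fin K → T) (e t j) = (s : Fin K → T) (e s j) :=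
      fun j => congrArg Prod.snd (congrFun hts j)
    apply Subtype.ext
    funext i
    by_cases hi : ∃ j, e t j = i
    · obtain ⟨j, rfl⟩ := hi
      rw [h3 j, h2 j]
    · have h4 : (t : Fin K → T) i = 1 := by
        by_contra hc
        exact hi (he t i hc)
      have h5 : (s : Fin K → T) i = 1 := by
        by_contra hc
        obtain ⟨j, hj⟩ := he s i hc
        exact hi ⟨j, by rw [h2 j, hj]⟩
      rw [h4, h5]
  have h6 := Nat.card_le_card_of_injective _ hinj
  have h7 : Nat.card (Fin p → Fin K × T) = (K * Nat.card T) ^ p := by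
    rw [Nat.card_fun, Nat.card_prod, Nat.card_fin, Nat.card_fin]
  rwa [h7] at h6

theorem arith (p : ℕ) (hp : 1 ≤ p) : 5 + 2 * p + (p + 3) * p + p ≤ 2 ^ (p + 3) := by
  induction p, hp using Nat.le_induction with
  | base => norm_num
  | succ n hn ih =>
    have h : 2 ^ (n + 1 + 3) = 2 * 2 ^ (n + 3) := by
      rw [show n + 1 + 3 = (n + 3) + 1 by ring, pow_succ]
      ring
    rw [h]
    nlinarith

theorem count {T : Type} [Group T] [Finite T] (hT : 2 ≤ Nat.card T) {p : ℕ} (hp : 1 ≤ p) :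
    32 * (Nat.card T + 1) ^ p * Nat.card {t : Fin (2 ^ (p + 3)) → T // Nat.card {i // t i ≠ 1} < p} ≤
      Nat.card T ^ (2 ^ (p + 3)) := by
  set m := Nat.card T with hm
  have h1 := small (T := T) (K := 2 ^ (p + 3)) (p := p) ⟨0, by positivity⟩
  have h2 : 32 ≤ m ^ 5 := by
    calc 32 = 2 ^ 5 := by norm_num
      _ ≤ m ^ 5 := Nat.pow_le_pow_left hT 5
  have h3 : (m + 1) ^ p ≤ m ^ (2 * p) := by
    rw [pow_mul]
    exact Nat.pow_le_pow_left (by nlinarith) p
  have h4 : (2 ^ (p + 3) * m) ^ p ≤ m ^ ((p + 3) * p) * m ^ p := by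
    rw [mul_pow, ← pow_mul]
    exact Nat.mul_le_mul (Nat.pow_le_pow_left hT _) le_rfl
  calc 32 * (m + 1) ^ p * Nat.card {t : Fin (2 ^ (p + 3)) → T // Nat.card {i // t i ≠ 1} < p}
      ≤ m ^ 5 * m ^ (2 * p) * (m ^ ((p + 3) * p) * m ^ p) :=
        Nat.mul_le_mul (Nat.mul_le_mul h2 h3) (h1.trans h4)
    _ = m ^ (5 + 2 * p + (p + 3) * p + p) := by
        rw [pow_add, pow_add, pow_add]
        ring
    _ ≤ m ^ (2 ^ (p + 3)) := Nat.pow_le_pow_right (by omega) (arith p hp)

end Pool.Agent.H22.BH
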