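import Mathlib

set_option autoImplicit false

/-! EMB: commuting copies of a subgroup of a small linear group (helper22). -/

open Matrix

namespace Pool.Agent.H22.BH

section
variable {F : Type} [Field F] {n r K : ℕ}

/-- the coordinate `j` of the block `k` -/
def io (hn : K * r < n) (k : Fin K) (j : Fin r) : Fin n :=
  ⟨k * r + j, by
    have h1 : ((k : ℕ) + 1) * r ≤ K * r := Nat.mul_le_mul_right r k.2
    have h2 := j.2
    nlinarith⟩

theorem io_inj (hn : K * r < n) {k l : Fin K} {i j : Fin r} (h : io hn k i = io hn l j) :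
    k = l ∧ i = j := by
  have h1 : (k : ℕ) * r + i = l * r + j := congrArg Fin.val h
  have hi := i.2
  have hj := j.2
  have hr : 0 < r := by omega
  have h2 : (k : ℕ) = l := by
    have h3 : ((k : ℕ) * r + i) / r = k := by
      rw [mul_comm, Nat.mul_add_div hr, Nat.div_eq_of_lt hi, add_zero]
    have h4 : ((l : ℕ) * r + j) / r = l := by
      rw [mul_comm, Nat.mul_add_div hr, Nat.div_eq_of_lt hj, add_zero]
    rw [← h3, ← h4, h1]
  refine ⟨Fin.ext h2, Fin.ext ?_⟩
  rw [h2] at h1
  omega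

/-- the embedding of the block `k` -/
def Q (F : Type) [Field F] (hn : K * r < n) (k : Fin K) : Matrix (Fin n) (Fin r) F :=
  Matrix.of fun a j => if a = io hn k j then 1 else 0

theorem QQ (hn : K * r < n) (k : Fin K) : (Q F hn k)ᵀ * Q F hn k = 1 := by
  ext i j
  rw [Matrix.mul_apply, Finset.sum_eq_single (io hn k i)]
  · by_cases h : i = j
    · subst h
      simp [Q]
    · rw [Matrix.one_apply_ne h]
      have : io hn k i ≠ io hn k j := fun h' => h (io_inj hn h').2
      simp [Q, this]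
  · intro b _ hb
    simp [Q, hb]
  · simp

theorem QQ' (hn : K * r < n) {k l : Fin K} (h : k ≠ l) : (Q F hn k)ᵀ * Q F hn l = 0 := by
  ext i j
  rw [Matrix.mul_apply]
  refine Finset.sum_eq_zero fun b _ => ?_
  by_cases hb : b = io hn k i
  · have : b ≠ io hn l j := by
      rintro rfl
      exact h (io_inj hn hb).1.symm
    simp [Q, this]
  · simp [Q, hb]

/-- the restriction of `X - 1` to the block `0` -/
def N (hn : K * r < n) (k : Fin K) (X : Matrix (Fin n) (Fin n) F) : Matrix (Fin r) (Fin r) F :=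
  (Q F hn k)ᵀ * (X - 1) * Q F hn k

theorem dec (hn : K * r < n) (hK : 0 < K) (X : Matrix (Fin n) (Fin n) F)
    (hX : ∀ i j : Fin n, (r ≤ (i : ℕ) ∨ r ≤ (j : ℕ)) → X i j = (1 : Matrix (Fin n) (Fin n) F) i j) :
    Q F hn ⟨0, hK⟩ * N hn ⟨0, hK⟩ X * (Q F hn ⟨0, hK⟩)ᵀ = X - 1 := by
  have hio : ∀ j : Fin r, ((io hn ⟨0, hK⟩ j : Fin n) : ℕ) = j := by
    intro j
    simp [io]
  have hN : ∀ i j : Fin r, N hn ⟨0, hK⟩ X i j = (X - 1) (io hn ⟨0, hK⟩ i) (io hn ⟨0, hK⟩ j) := by
    intro i j
    unfold N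
    rw [Matrix.mul_apply, Finset.sum_eq_single (io hn ⟨0, hK⟩ j)]
    · rw [Matrix.mul_apply, Finset.sum_eq_single (io hn ⟨0, hK⟩ i)]
      · simp [Q]
      · intro b _ hb
        simp [Q, hb]
      · simp
    · intro b _ hb
      simp [Q, hb]
    · simp
  ext a b
  by_cases ha : (a : ℕ) < r
  · by_cases hb : (b : ℕ) < r
    · have hae : a = io hn ⟨0, hK⟩ ⟨a, ha⟩ := Fin.ext (hio ⟨a, ha⟩).symm
      have hbe : b = io hn ⟨0, hK⟩ ⟨b, hb⟩ := Fin.ext (hio ⟨b, hb⟩).symm
      rw [Matrix.mul_apply, Finset.sum_eq_single ⟨b, hb⟩]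
      · rw [Matrix.mul_apply, Finset.sum_eq_single ⟨a, ha⟩]
        · rw [hN, ← hae, ← hbe]
          have h1 : Q F hn ⟨0, hK⟩ a ⟨a, ha⟩ = 1 := by simp [Q, ← hae]
          have h2 : (Q F hn ⟨0, hK⟩)ᵀ ⟨b, hb⟩ b = 1 := by simp [Q, ← hbe]
          rw [h1, h2, one_mul, mul_one]
        · intro c _ hc
          have h1 : Q F hn ⟨0, hK⟩ a c = 0 := by
            have : a ≠ io hn ⟨0, hK⟩ c := by
              intro h
              apply hc
              apply Fin.ext
              have := congrArg Fin.val h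
              rw [hio] at this
              exact this.symm
            simp [Q, this]
          rw [h1, zero_mul]
        · simp
      · intro c _ hc
        have h1 : (Q F hn ⟨0, hK⟩)ᵀ c b = 0 := by
          have : b ≠ io hn ⟨0, hK⟩ c := by
            intro h
            apply hc
            apply Fin.ext
            have := congrArg Fin.val h
            rw [hio] at this
            exact this.symm
          simp [Q, this]
        rw [h1, mul_zero]
      · simp
    · rw [Matrix.sub_apply, hX a b (Or.inr (by omega)), sub_self, Matrix.mul_apply]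
      refine Finset.sum_eq_zero fun c _ => ?_
      have h1 : (Q F hn ⟨0, hK⟩)ᵀ c b = 0 := by
        have : b ≠ io hn ⟨0, hK⟩ c := by
          intro h
          have := congrArg Fin.val h
          rw [hio] at this
          have := c.2
          omega
        simp [Q, this]
      rw [h1, mul_zero]
  · rw [Matrix.sub_apply, hX a b (Or.inl (by omega)), sub_self, Matrix.mul_assoc, Matrix.mul_apply]
    refine Finset.sum_eq_zero fun c _ => ?_
    have h1 : Q F hn ⟨0, hK⟩ a c = 0 := by
      have : a ≠ io hn ⟨0, hK⟩ c := by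
        intro h
        have := congrArg Fin.val h
        rw [hio] at this
        have := c.2
        omega
      simp [Q, this]
    rw [h1, zero_mul]

/-- the block diagonal matrix -/
def Mx (hn : K * r < n) (S : Finset (Fin K)) (B : Fin K → Matrix (Fin r) (Fin r) F) :
    Matrix (Fin n) (Fin n) F :=
  ∑ k ∈ S, Q F hn k * B k * (Q F hn k)ᵀ

theorem Mx_mulQ (hn : K * r < n) (S : Finset (Fin K)) (B : Fin K → Matrix (Fin r) (Fin r) F)
    (l : Fin K) : Mx hn S B * Q F hn l = if l ∈ S then Q F hn l * B l else 0 := by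
  unfold Mx
  rw [Matrix.sum_mul]
  have h : ∀ k ∈ S, Q F hn k * B k * (Q F hn k)ᵀ * Q F hn l = if l = k then Q F hn k * B k else 0 := by
    intro k _
    rw [Matrix.mul_assoc]
    by_cases hkl : l = k
    · subst hkl
      rw [QQ, Matrix.mul_one, if_pos rfl]
    · rw [QQ' hn (Ne.symm hkl), Matrix.mul_zero, if_neg hkl]
  rw [Finset.sum_congr rfl h, Finset.sum_ite_eq]

theorem Mx_mul (hn : K * r < n) (S : Finset (Fin K)) (B B' : Fin K → Matrix (Fin r) (Fin r) F) :
    Mx hn S B * Mx hn S B' = Mx hn S fun k => B k * B' k := by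
  conv_lhs => rw [Mx.eq_1 hn S B']
  rw [Matrix.mul_sum]
  unfold Mx
  refine Finset.sum_congr rfl fun k hk => ?_
  have h := Mx_mulQ (F := F) hn S B k
  unfold Mx at h
  rw [← Matrix.mul_assoc, ← Matrix.mul_assoc, h, if_pos hk]
  simp only [Matrix.mul_assoc]

theorem det_Mx (hn : K * r < n) (S : Finset (Fin K)) (B : Fin K → Matrix (Fin r) (Fin r) F)
    (hB : ∀ k, (1 + B k).det = 1) : (1 + Mx hn S B).det = 1 := by
  classical
  induction S using Finset.induction_on with
  | empty => simp [Mx]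
  | insert k S hk ih =>
    have h1 : 1 + Mx hn (insert k S) B =
        (1 + Mx hn S B) * (1 + Q F hn k * B k * (Q F hn k)ᵀ) := by
      have h2 : Mx hn S B * (Q F hn k * B k * (Q F hn k)ᵀ) = 0 := by
        rw [← Matrix.mul_assoc, ← Matrix.mul_assoc, Mx_mulQ, if_neg hk, Matrix.zero_mul,
          Matrix.zero_mul]
      rw [add_mul, one_mul, mul_add, mul_one, h2, add_zero]
      unfold Mx
      rw [Finset.sum_insert hk]
      abel
    rw [h1, Matrix.det_mul, ih, one_mul, Matrix.mul_assoc, Matrix.det_one_add_mul_comm,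
      Matrix.mul_assoc, QQ, Matrix.mul_one]
    exact hB k

theorem Mx_add (hn : K * r < n) (S : Finset (Fin K)) (B B' : Fin K → Matrix (Fin r) (Fin r) F) :
    (Mx hn S fun k => B k + B' k) = Mx hn S B + Mx hn S B' := by
  unfold Mx
  rw [← Finset.sum_add_distrib]
  refine Finset.sum_congr rfl fun k _ => ?_
  rw [Matrix.mul_add, Matrix.add_mul]

theorem Mx_rank (hn : K * r < n) (B : Fin K → Matrix (Fin r) (Fin r) F) :
    (Mx hn Finset.univ B).rank ≤ K * r := by
  have h : Mx hn Finset.univ B =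
      (Matrix.of fun (a : Fin n) (x : Fin K × Fin r) => (Q F hn x.1 * B x.1) a x.2) *
        (Matrix.of fun (x : Fin K × Fin r) (b : Fin n) => (Q F hn x.1)ᵀ x.2 b) := by
    ext a b
    rw [Matrix.mul_apply, Fintype.sum_prod_type]
    unfold Mx
    rw [Matrix.sum_apply]
    refine Finset.sum_congr rfl fun k _ => ?_
    rw [Matrix.mul_apply]
    rfl
  rw [h]
  refine (Matrix.rank_mul_le_left _ _).trans ((Matrix.rank_le_card_width _).trans ?_)
  rw [Fintype.card_prod, Fintype.card_fin, Fintype.card_fin]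

end

theorem copies {F : Type} [Field F] {n r K : ℕ} (T : Subgroup (Matrix.SpecialLinearGroup (Fin n) F))
    (hT : ∀ t ∈ T, ∀ i j : Fin n, (r ≤ (i : ℕ) ∨ r ≤ (j : ℕ)) →
      (t : Matrix (Fin n) (Fin n) F) i j = (1 : Matrix (Fin n) (Fin n) F) i j)
    (hK : 0 < K) (hn : K * r < n) :
    ∃ (ψ : (Fin K → T) →* Matrix.SpecialLinearGroup (Fin n) F) (i0 : Fin K),
      (∀ t : T, ψ (Pi.mulSingle i0 t) = t) ∧
      (∀ (i : Fin K) (t : T), ∃ g, ψ (Pi.mulSingle i t) = g * ψ (Pi.mulSingle i0 t) * g⁻¹) ∧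
      ∀ t : Fin K → T, Nat.card {i // t i ≠ 1} ≤ ((ψ t : Matrix (Fin n) (Fin n) F) - 1).rank ∧
        ((ψ t : Matrix (Fin n) (Fin n) F) - 1).rank ≤ K * r := by
  classical
  let i0 : Fin K := ⟨0, hK⟩
  let B : T → Matrix (Fin r) (Fin r) F := fun t =>
    N hn i0 ((t : Matrix.SpecialLinearGroup (Fin n) F) : Matrix (Fin n) (Fin n) F)
  have hdec : ∀ t : T, Q F hn i0 * B t * (Q F hn i0)ᵀ =
      ((t : Matrix.SpecialLinearGroup (Fin n) F) : Matrix (Fin n) (Fin n) F) - 1 :=
    fun t => dec hn hK _ (hT t t.2)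
  have hdec' : ∀ t : T, ((t : Matrix.SpecialLinearGroup (Fin n) F) : Matrix (Fin n) (Fin n) F) =
      1 + Q F hn i0 * B t * (Q F hn i0)ᵀ := by
    intro t
    rw [hdec]
    abel
  have hB1 : B 1 = 0 := by simp [B, N]
  have hBmul : ∀ t s : T, B (t * s) = B t + B s + B t * B s := by
    intro t s
    have h1 : ((((t * s : T) : Matrix.SpecialLinearGroup (Fin n) F)) : Matrix (Fin n) (Fin n) F) - 1 =
        Q F hn i0 * (B t + B s + B t * B s) * (Q F hn i0)ᵀ := by
      have h2 : ((((t * s : T) : Matrix.SpecialLinearGroup (Fin n) F)) : Matrix (Fin n) (Fin n) F) =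
          (1 + Q F hn i0 * B t * (Q F hn i0)ᵀ) * (1 + Q F hn i0 * B s * (Q F hn i0)ᵀ) := by
        rw [← hdec', ← hdec']
        rfl
      have h3 : Q F hn i0 * B t * (Q F hn i0)ᵀ * (Q F hn i0 * B s * (Q F hn i0)ᵀ) =
          Q F hn i0 * (B t * B s) * (Q F hn i0)ᵀ := by
        calc Q F hn i0 * B t * (Q F hn i0)ᵀ * (Q F hn i0 * B s * (Q F hn i0)ᵀ)
            = Q F hn i0 * B t * ((Q F hn i0)ᵀ * Q F hn i0) * B s * (Q F hn i0)ᵀ := by
              simp only [Matrix.mul_assoc]
          _ = _ := by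
              rw [QQ, Matrix.mul_one]
              simp only [Matrix.mul_assoc]
      rw [h2, add_mul, one_mul, mul_add, mul_one, h3, Matrix.mul_add, Matrix.mul_add,
        Matrix.add_mul, Matrix.add_mul]
      abel
    show N hn i0 _ = _
    unfold N
    rw [h1]
    calc (Q F hn i0)ᵀ * (Q F hn i0 * (B t + B s + B t * B s) * (Q F hn i0)ᵀ) * Q F hn i0
        = ((Q F hn i0)ᵀ * Q F hn i0) * (B t + B s + B t * B s) * ((Q F hn i0)ᵀ * Q F hn i0) := by
          simp only [Matrix.mul_assoc]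
      _ = _ := by rw [QQ, Matrix.one_mul, Matrix.mul_one]
  have hBdet : ∀ t : T, (1 + B t).det = 1 := by
    intro t
    have h1 : (((t : Matrix.SpecialLinearGroup (Fin n) F) : Matrix (Fin n) (Fin n) F)).det = 1 :=
      (t : Matrix.SpecialLinearGroup (Fin n) F).2
    rw [hdec', Matrix.mul_assoc, Matrix.det_one_add_mul_comm, Matrix.mul_assoc, QQ,
      Matrix.mul_one] at h1
    exact h1
  let ψ : (Fin K → T) →* Matrix.SpecialLinearGroup (Fin n) F :=
    MonoidHom.mk' (fun t => ⟨1 + Mx hn Finset.univ (fun k => B (t k)),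
      det_Mx hn _ _ fun k => hBdet (t k)⟩) (by
      intro t s
      apply Subtype.ext
      show 1 + Mx hn Finset.univ (fun k => B ((t * s) k)) =
        (1 + Mx hn Finset.univ (fun k => B (t k))) * (1 + Mx hn Finset.univ (fun k => B (s k)))
      have h1 : (fun k => B ((t * s) k)) = fun k => (B (t k) + B (s k)) + B (t k) * B (s k) := by
        funext k
        exact hBmul (t k) (s k)
      rw [h1, Mx_add, Mx_add, add_mul, one_mul, mul_add, mul_one, Mx_mul]
      abel)
  have hψ : ∀ t : Fin K → T, ((ψ t : Matrix.SpecialLinearGroup (Fin n) F) : Matrix (Fin n) (Fin n) F) =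
      1 + Mx hn Finset.univ (fun k => B (t k)) := fun t => rfl
  have hψs : ∀ (i : Fin K) (t : T),
      ((ψ (Pi.mulSingle i t) : Matrix.SpecialLinearGroup (Fin n) F) : Matrix (Fin n) (Fin n) F) =
      1 + Q F hn i * B t * (Q F hn i)ᵀ := by
    intro i t
    rw [hψ]
    unfold Mx
    rw [Finset.sum_eq_single i]
    · beta_reduce
      rw [Pi.mulSingle_eq_same]
    · intro k _ hk
      beta_reduce
      rw [Pi.mulSingle_eq_of_ne hk, hB1, Matrix.mul_zero, Matrix.zero_mul]
    · simp
  refine ⟨ψ, i0, fun t => ?_, fun i t => ?_, fun t => ?_⟩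
  · apply Subtype.ext
    rw [hψs, ← hdec']
  · by_cases hi : i = i0
    · subst hi
      exact ⟨1, by simp⟩
    · have q1 : (Q F hn i)ᵀ * Q F hn i0 = 0 := QQ' hn hi
      have q2 : (Q F hn i0)ᵀ * Q F hn i = 0 := QQ' hn (Ne.symm hi)
      let U : Matrix.SpecialLinearGroup (Fin n) F := ⟨1 + Q F hn i * (Q F hn i0)ᵀ, by
        rw [Matrix.det_one_add_mul_comm, q2, add_zero, Matrix.det_one]⟩
      let V : Matrix.SpecialLinearGroup (Fin n) F := ⟨1 - Q F hn i0 * (Q F hn i)ᵀ, by
        rw [Matrix.det_one_sub_mul_comm, q1, sub_zero, Matrix.det_one]⟩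
      have hUm : (U : Matrix (Fin n) (Fin n) F) = 1 + Q F hn i * (Q F hn i0)ᵀ := rfl
      have hVm : (V : Matrix (Fin n) (Fin n) F) = 1 - Q F hn i0 * (Q F hn i)ᵀ := rfl
      have hU0 : (U : Matrix (Fin n) (Fin n) F) * Q F hn i0 = Q F hn i0 + Q F hn i := by
        rw [hUm, Matrix.add_mul, Matrix.one_mul, Matrix.mul_assoc, QQ, Matrix.mul_one]
      have hUi : (U : Matrix (Fin n) (Fin n) F) * Q F hn i = Q F hn i := by
        rw [hUm, Matrix.add_mul, Matrix.one_mul, Matrix.mul_assoc, q2, Matrix.mul_zero, add_zero]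
      have hV : (V : Matrix (Fin n) (Fin n) F) * (Q F hn i0 + Q F hn i) = Q F hn i := by
        rw [hVm, Matrix.sub_mul, Matrix.one_mul, Matrix.mul_assoc, Matrix.mul_add, q1, QQ, zero_add,
          Matrix.mul_one]
        abel
      have hU0' : (Q F hn i)ᵀ * (U : Matrix (Fin n) (Fin n) F) = (Q F hn i)ᵀ + (Q F hn i0)ᵀ := by
        rw [hUm, Matrix.mul_add, Matrix.mul_one, ← Matrix.mul_assoc, QQ, Matrix.one_mul]
      have hUi' : (Q F hn i0)ᵀ * (U : Matrix (Fin n) (Fin n) F) = (Q F hn i0)ᵀ := by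
        rw [hUm, Matrix.mul_add, Matrix.mul_one, ← Matrix.mul_assoc, q2, Matrix.zero_mul, add_zero]
      have hV' : ((Q F hn i)ᵀ + (Q F hn i0)ᵀ) * (V : Matrix (Fin n) (Fin n) F) = (Q F hn i0)ᵀ := by
        rw [hVm, Matrix.mul_sub, Matrix.mul_one, ← Matrix.mul_assoc, Matrix.add_mul, q1, QQ, zero_add,
          Matrix.one_mul]
        abel
      have g0 : ((U * V * U : Matrix.SpecialLinearGroup (Fin n) F) : Matrix (Fin n) (Fin n) F) *
          Q F hn i0 = Q F hn i := by
        rw [Matrix.SpecialLinearGroup.coe_mul, Matrix.SpecialLinearGroup.coe_mul, Matrix.mul_assoc,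
          hU0, Matrix.mul_assoc, hV, hUi]
      have g1 : (Q F hn i)ᵀ *
          ((U * V * U : Matrix.SpecialLinearGroup (Fin n) F) : Matrix (Fin n) (Fin n) F) =
          (Q F hn i0)ᵀ := by
        rw [Matrix.SpecialLinearGroup.coe_mul, Matrix.SpecialLinearGroup.coe_mul, ← Matrix.mul_assoc,
          ← Matrix.mul_assoc, hU0', hV', hUi']
      refine ⟨U * V * U, eq_mul_inv_of_mul_eq ?_⟩
      apply Subtype.ext
      show ((ψ (Pi.mulSingle i t) * (U * V * U) : Matrix.SpecialLinearGroup (Fin n) F) :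
          Matrix (Fin n) (Fin n) F) =
        ((U * V * U * ψ (Pi.mulSingle i0 t) : Matrix.SpecialLinearGroup (Fin n) F) :
          Matrix (Fin n) (Fin n) F)
      rw [Matrix.SpecialLinearGroup.coe_mul, Matrix.SpecialLinearGroup.coe_mul _ (ψ _), hψs, hψs,
        Matrix.add_mul, Matrix.one_mul, Matrix.mul_assoc, g1, Matrix.mul_add, Matrix.mul_one,
        ← Matrix.mul_assoc, ← Matrix.mul_assoc, g0]
  · have hsub : ((ψ t : Matrix (Fin n) (Fin n) F) - 1) = Mx hn Finset.univ (fun k => B (t k)) := by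
      rw [hψ]
      abel
    rw [hsub]
    refine ⟨?_, Mx_rank hn _⟩
    have hne : ∀ s : {i // t i ≠ 1}, ∃ x : Fin r × Fin r, B (t s) x.1 x.2 ≠ 0 := by
      intro s
      by_contra hcon
      push Not at hcon
      have h0 : B (t s) = 0 := by
        ext x y
        exact hcon (x, y)
      apply s.2
      apply Subtype.ext
      apply Subtype.ext
      rw [hdec', h0, Matrix.mul_zero, Matrix.zero_mul, add_zero]
      rfl
    choose x hx using hne
    let R : Matrix {i // t i ≠ 1} (Fin n) F := Matrix.of fun s a => Q F hn s a (x s).1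
    let C' : Matrix (Fin n) {i // t i ≠ 1} F := Matrix.of fun a s => Q F hn s a (x s).2
    have hd : R * (Mx hn Finset.univ (fun k => B (t k)) * C') =
        Matrix.diagonal fun s : {i // t i ≠ 1} => B (t s) (x s).1 (x s).2 := by
      ext s s'
      have h1 : (R * (Mx hn Finset.univ (fun k => B (t k)) * C')) s s' =
          ((Q F hn s)ᵀ * (Mx hn Finset.univ (fun k => B (t k)) * Q F hn s')) (x s).1 (x s').2 := rfl
      rw [h1, Mx_mulQ, if_pos (Finset.mem_univ _), ← Matrix.mul_assoc]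
      by_cases hs : s = s'
      · subst hs
        rw [QQ, Matrix.one_mul, Matrix.diagonal_apply_eq]
      · rw [QQ' hn (fun h => hs (Subtype.ext h)), Matrix.zero_mul, Matrix.diagonal_apply_ne _ hs]
        rfl
    have hr := Matrix.rank_diagonal (fun s : {i // t i ≠ 1} => B (t s) (x s).1 (x s).2)
    rw [← hd] at hr
    have hc : Fintype.card {s : {i // t i ≠ 1} // B (t s) (x s).1 (x s).2 ≠ 0} =
        Nat.card {i // t i ≠ 1} := by
      rw [← Nat.card_eq_fintype_card]
      exact Nat.card_congr (Equiv.subtypeUnivEquiv hx)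
    rw [← hc, ← hr]
    exact (Matrix.rank_mul_le_right _ _).trans (Matrix.rank_mul_le_left _ _)

end Pool.Agent.H22.BH
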